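import Pool.Agent.Helper39.PalNil

set_option autoImplicit false
set_option linter.all false

/-!
# The lower bound `2 n + 1` for the palindromic width, also for `n = 2`

The library `Helper39.PalNil` proves for `n ≥ 3` that `(t_0 t_1 ⋯ t_n) ^ 4` is not a product of
`2 n` reflections modulo the fifth term of the lower central series.  Here this is proved for
`n ≥ 2`, by a further test in the dihedral group of order sixteen.
-/

open Subgroup
open scoped commutatorElement

namespace Pool.Agent.Y42.Pal

open Pool.Agent.Helper39.PalNil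

abbrev D16 := DihedralGroup 8

/-- parity of the number of `sr 0` factors -/
def μ1 : D16 →* Multiplicative (ZMod 2) where
  toFun a := match a with
    | .r i => Multiplicative.ofAdd (i.val : ZMod 2)
    | .sr i => Multiplicative.ofAdd ((i.val + 1 : ℕ) : ZMod 2)
  map_one' := by decide
  map_mul' := by decide +kernel

/-- parity of the number of `sr 1` factors -/
def μ2 : D16 →* Multiplicative (ZMod 2) where
  toFun a := match a with
    | .r i => Multiplicative.ofAdd (i.val : ZMod 2)
    | .sr i => Multiplicative.ofAdd (i.val : ZMod 2)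
  map_one' := by decide
  map_mul' := by decide +kernel

/-- the central rotation of order two -/
abbrev z16 : D16 := DihedralGroup.r 4

lemma d16_four : ∀ P : D16, μ1 P = e1 → μ2 P = e1 → P ^ 4 = z16 := by
  decide +kernel

def K1 : Subgroup D16 where
  carrier := {a | a = 1 ∨ a = DihedralGroup.r 2 ∨ a = z16 ∨ a = DihedralGroup.r 6}
  one_mem' := by decide
  mul_mem' := by
    rintro a b (rfl | rfl | rfl | rfl) (rfl | rfl | rfl | rfl) <;> decide
  inv_mem' := by
    rintro a (rfl | rfl | rfl | rfl) <;> decide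

def K2 : Subgroup D16 where
  carrier := {a | a = 1 ∨ a = z16}
  one_mem' := by decide
  mul_mem' := by
    rintro a b (rfl | rfl) (rfl | rfl) <;> decide
  inv_mem' := by
    rintro a (rfl | rfl) <;> decide

instance (a : D16) : Decidable (a ∈ K1) :=
  inferInstanceAs (Decidable (a = 1 ∨ a = DihedralGroup.r 2 ∨ a = z16 ∨ a = DihedralGroup.r 6))

instance (a : D16) : Decidable (a ∈ K2) :=
  inferInstanceAs (Decidable (a = 1 ∨ a = z16))

lemma d16_step1 : ∀ a b : D16, ⁅a, b⁆ ∈ K1 := by decide +kernel

lemma d16_step2 : ∀ a : D16, a ∈ K1 → ∀ b : D16, ⁅a, b⁆ ∈ K2 := by decide +kernel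

lemma d16_step3 : ∀ a : D16, a ∈ K2 → ∀ b : D16, ⁅a, b⁆ = 1 := by decide +kernel

lemma lcs_D16 : (⊤ : Subgroup D16).lowerCentralSeries 3 = ⊥ := by
  have h1 : (⊤ : Subgroup D16).lowerCentralSeries 1 ≤ K1 := by
    change ⁅(⊤ : Subgroup D16), (⊤ : Subgroup D16)⁆ ≤ _
    rw [Subgroup.commutator_le]
    intro a _ b _
    exact d16_step1 a b
  have h2 : (⊤ : Subgroup D16).lowerCentralSeries 2 ≤ K2 := by
    change ⁅(⊤ : Subgroup D16).lowerCentralSeries 1, (⊤ : Subgroup D16)⁆ ≤ _
    rw [Subgroup.commutator_le]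
    intro a ha b _
    exact d16_step2 a (h1 ha) b
  change ⁅(⊤ : Subgroup D16).lowerCentralSeries 2, (⊤ : Subgroup D16)⁆ = ⊥
  rw [eq_bot_iff, Subgroup.commutator_le]
  intro a ha b _
  rw [Subgroup.mem_bot]
  exact d16_step3 a (h2 ha) b

section count
variable {n : ℕ}

/-- the pair of generating involutions of `D16` placed at the indices `a`, `b` -/
def tE (a b : Fin (n + 1)) : Fin (n + 1) → D16 := fun k =>
  if k = a then DihedralGroup.sr 0 else if k = b then DihedralGroup.sr 1 else 1

lemma tE_sq (a b k : Fin (n + 1)) : tE a b k * tE a b k = 1 := by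
  unfold tE; split_ifs <;> decide

lemma tE_prod {a b : Fin (n + 1)} (hab : a ≠ b) :
    ((List.finRange (n + 1)).map (tE a b)).prod ^ 4 = z16 := by
  apply d16_four
  · rw [map_list_prod, List.map_map, ← prod_chi a]
    congr 1
    apply List.map_congr_left
    intro k _
    simp only [Function.comp_apply, tE, chi]
    split_ifs <;> decide
  · rw [map_list_prod, List.map_map, ← prod_chi b]
    congr 1
    apply List.map_congr_left
    intro k _
    simp only [Function.comp_apply, tE, chi]
    split_ifs with h1 h2 h3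
    · exact absurd (h1.symm.trans h2) hab
    · decide
    · decide
    · decide

lemma not_both_missing' {L : List (Entry n)} {a b : Fin (n + 1)}
    (h : refl (tE a b) L = z16) : 0 < cnt L a ∨ 0 < cnt L b := by
  by_contra hcon
  push Not at hcon
  have : refl (tE a b) L = 1 := by
    apply refl_eq_one
    intro e he
    have := cnt_pos_of_mem he
    have h1 : e.1 ≠ a := by rintro h1; rw [h1] at this; omega
    have h2 : e.1 ≠ b := by rintro h1; rw [h1] at this; omega
    simp [tE, h1, h2]
  rw [this] at h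
  revert h; decide

theorem lower_four_aux' (hn : 2 ≤ n) (L : List (Entry n))
    (h1 : ∀ c, refl (chi c) L = 1)
    (h2 : ∀ c i l, c ≠ i → c ≠ l → i ≠ l → ∀ f, refl (tW c i l f) L = ⟨z8, z8, false⟩)
    (h3 : ∀ a b, a ≠ b → refl (tE a b) L = z16) :
    2 * n < L.length := by
  have hev := fun c => cnt_even L c (h1 c)
  rw [← sum_cnt L]
  by_cases hmiss : ∃ c, cnt L c = 0
  · obtain ⟨c, hc⟩ := hmiss
    -- full indices occur at least four times
    have hfull : ∀ i, i ≠ c → (∀ b, 0 < cntS L c i b) → 4 ≤ cnt L i := by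
      intro i hic hb
      obtain ⟨l, hl⟩ : ∃ l, l ∉ ({c, i} : Finset (Fin (n + 1))) := by
        by_contra hcon
        push Not at hcon
        have : (Finset.univ : Finset (Fin (n + 1))) ⊆ {c, i} := fun x _ => hcon x
        have := Finset.card_le_card this
        rw [Finset.card_univ, Fintype.card_fin] at this
        have := Finset.card_le_two (a := c) (b := i)
        omega
      simp only [Finset.mem_insert, Finset.mem_singleton, not_or] at hl
      have hh := h2 c i l (Ne.symm hic) (Ne.symm hl.1) (Ne.symm hl.2) true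
      have e1 := cntS_even hc (Ne.symm hic) (Ne.symm hl.1) hh true
      have e2 := cntS_even hc (Ne.symm hic) (Ne.symm hl.1) hh false
      have p1 := hb true
      have p2 := hb false
      rw [cnt_eq_add L c i]
      obtain ⟨j1, hj1⟩ := e1
      obtain ⟨j2, hj2⟩ := e2
      omega
    -- every index different from `c` occurs, hence at least twice
    have htwo : ∀ i, i ≠ c → 2 ≤ cnt L i := by
      intro i hic
      rcases not_both_missing' (h3 c i (Ne.symm hic)) with h | h
      · omega
      · obtain ⟨j, hj⟩ := hev i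
        omega
    -- at most one deficient index
    obtain ⟨i₀, hi₀c, hi₀⟩ : ∃ i₀, i₀ ≠ c ∧ ∀ k ∈ (Finset.univ.erase c).erase i₀, 4 ≤ cnt L k := by
      by_cases hd : ∃ i, i ≠ c ∧ ∃ b, cntS L c i b = 0
      · obtain ⟨i, hic, b, hb⟩ := hd
        refine ⟨i, hic, ?_⟩
        intro k hk
        rw [Finset.mem_erase, Finset.mem_erase] at hk
        obtain ⟨hki, hkc, -⟩ := hk
        apply hfull k hkc
        intro b'
        rcases four_conditions hc (Ne.symm hic) (Ne.symm hkc)
          (h2 c i k (Ne.symm hic) (Ne.symm hkc) (Ne.symm hki)) b b' with h | h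
        · omega
        · exact h
      · push Not at hd
        obtain ⟨i, hi⟩ : ∃ i, i ∉ ({c} : Finset (Fin (n + 1))) := by
          by_contra hcon
          push Not at hcon
          have : (Finset.univ : Finset (Fin (n + 1))) ⊆ {c} := fun x _ => hcon x
          have := Finset.card_le_card this
          rw [Finset.card_univ, Fintype.card_fin, Finset.card_singleton] at this
          omega
        refine ⟨i, by simpa using hi, ?_⟩
        intro k hk
        rw [Finset.mem_erase, Finset.mem_erase] at hk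
        exact hfull k hk.2.1 (fun b => Nat.pos_of_ne_zero (hd k hk.2.1 b))
    have hs : ∑ k ∈ (Finset.univ.erase c).erase i₀, 4 + cnt L i₀ ≤ ∑ k, cnt L k := by
      have h5 : ∑ k ∈ (Finset.univ.erase c).erase i₀, cnt L k + cnt L i₀ =
          ∑ k ∈ Finset.univ.erase c, cnt L k :=
        Finset.sum_erase_add _ _ (Finset.mem_erase.2 ⟨hi₀c, Finset.mem_univ _⟩)
      have h6 : ∑ k ∈ Finset.univ.erase c, cnt L k ≤ ∑ k, cnt L k :=
        Finset.sum_le_sum_of_subset (Finset.erase_subset _ _)
      have h7 := Finset.sum_le_sum hi₀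
      omega
    rw [Finset.sum_const, smul_eq_mul] at hs
    have hcard : n - 1 ≤ ((Finset.univ.erase c).erase i₀).card := by
      have h3 := Finset.pred_card_le_card_erase (s := Finset.univ.erase c) (a := i₀)
      rw [Finset.card_erase_of_mem (Finset.mem_univ c), Finset.card_univ, Fintype.card_fin] at h3
      omega
    have h8 : (n - 1) * 4 ≤ ((Finset.univ.erase c).erase i₀).card * 4 :=
      Nat.mul_le_mul_right _ hcard
    have h9 := htwo i₀ hi₀c
    omega
  · push Not at hmiss
    have hk : ∀ k ∈ (Finset.univ : Finset (Fin (n + 1))), 2 ≤ cnt L k := by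
      intro k _
      obtain ⟨j, hj⟩ := hev k
      have := hmiss k
      omega
    have hs := Finset.sum_le_sum hk
    rw [Finset.sum_const, Finset.card_univ, Fintype.card_fin, smul_eq_mul] at hs
    omega

/-- the subgroup generated by a term of the lower central series (`c = 0` is the whole group) and
all `m`-th powers -/
def RR (n c m : ℕ) : Subgroup (FreeGroup (Fin n)) :=
  (⊤ : Subgroup (FreeGroup (Fin n))).lowerCentralSeries c ⊔ closure {g | ∃ h, h ^ m = g}

lemma ev_eq_of_mem2 {Q : Type} [Group Q] (τ : Fin (n + 1) → Q) {k c m : ℕ}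
    (hQ : (⊤ : Subgroup Q).lowerCentralSeries k = ⊥) (hk : k ≤ c) (hm : ∀ a : Q, a ^ m = 1)
    {u v : FreeGroup (Fin n)} (h : u⁻¹ * v ∈ RR n c m) : ev τ u = ev τ v := by
  have h1 : RR n c m ≤ (ev τ).ker := by
    refine sup_le (lc_le_ker (ev τ) hQ hk) ?_
    rw [closure_le]
    rintro _ ⟨g, rfl⟩
    show g ^ m ∈ (ev τ).ker
    rw [MonoidHom.mem_ker, map_pow, hm]
  have h2 := h1 h
  rw [MonoidHom.mem_ker, map_mul, map_inv] at h2
  exact (inv_mul_eq_one.1 h2)

lemma wr_exp : ∀ a : Wr D8, a ^ 8 = 1 := by decide +kernel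

lemma d16_exp : ∀ a : D16, a ^ 8 = 1 := by decide +kernel

lemma d8_exp : ∀ a : D8, a ^ 4 = 1 := by decide +kernel

lemma c2_exp8 : ∀ a : Multiplicative (ZMod 2), a ^ 8 = 1 := by decide

lemma c2_exp4 : ∀ a : Multiplicative (ZMod 2), a ^ 4 = 1 := by decide

/-- modulo `γ_5` and eighth powers the element `g ^ 2` needs `2 n + 1` palindromes -/
theorem lower_four' (hn : 2 ≤ n) (l : List (FreeGroup (Fin n)))
    (hl : ∀ p ∈ l, ∃ w : List (Fin n × Bool), w.reverse = w ∧ FreeGroup.mk w = p)
    (h : l.prod⁻¹ * (gTwo n) ^ 2 ∈ RR n 4 8) : 2 * n + 1 ≤ l.length := by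
  obtain ⟨L, heven, hlen, hform⟩ := prod_form_even l hl
  have h1 : ∀ c, Pool.Agent.Helper39.PalNil.refl (chi c) L = 1 := by
    intro c
    have := hform _ (chi c) (chi_sq c)
    rw [Pool.Agent.Helper39.PalNil.refl, ← this,
      ev_eq_of_mem2 (chi c) lcs_comm (by omega : 1 ≤ 4) c2_exp8 h, map_pow,
      ev_gTwo (chi_sq c), prod_chi]
    decide
  have h2 : ∀ c i l, c ≠ i → c ≠ l → i ≠ l → ∀ f,
      Pool.Agent.Helper39.PalNil.refl (tW c i l f) L = ⟨z8, z8, false⟩ := by
    intro c i l hci hcl hil f
    have := hform _ (tW c i l f) (tW_sq c i l f)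
    rw [Pool.Agent.Helper39.PalNil.refl, ← this,
      ev_eq_of_mem2 (tW c i l f) lcs_Wr (le_refl 4) wr_exp h, map_pow, ev_gTwo (tW_sq c i l f),
      ← pow_mul, tW_prod hci hcl hil]
  have h3 : ∀ a b, a ≠ b → Pool.Agent.Helper39.PalNil.refl (tE a b) L = z16 := by
    intro a b hab
    have := hform _ (tE a b) (tE_sq a b)
    rw [Pool.Agent.Helper39.PalNil.refl, ← this,
      ev_eq_of_mem2 (tE a b) lcs_D16 (by omega : 3 ≤ 4) d16_exp h, map_pow,
      ev_gTwo (tE_sq a b), ← pow_mul, tE_prod hab]
  have := lower_four_aux' hn L h1 h2 h3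
  obtain ⟨j, hj⟩ := heven
  omega

/-- modulo `γ_3` and fourth powers the element `g` needs `2 n - 1` palindromes -/
theorem lower_two' (l : List (FreeGroup (Fin n)))
    (hl : ∀ p ∈ l, ∃ w : List (Fin n × Bool), w.reverse = w ∧ FreeGroup.mk w = p)
    (h : l.prod⁻¹ * gTwo n ∈ RR n 2 4) : 2 * n - 1 ≤ l.length := by
  obtain ⟨L, -, hlen, hform⟩ := prod_form_even l hl
  have h1 : ∀ c, Pool.Agent.Helper39.PalNil.refl (chi c) L = 1 := by
    intro c
    have := hform _ (chi c) (chi_sq c)
    rw [Pool.Agent.Helper39.PalNil.refl, ← this,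
      ev_eq_of_mem2 (chi c) lcs_comm (by omega : 1 ≤ 2) c2_exp4 h, ev_gTwo (chi_sq c), prod_chi]
    decide
  have h2 : ∀ a b, a ≠ b → Pool.Agent.Helper39.PalNil.refl (tD a b) L = z8 := by
    intro a b hab
    have := hform _ (tD a b) (tD_sq a b)
    rw [Pool.Agent.Helper39.PalNil.refl, ← this,
      ev_eq_of_mem2 (tD a b) lcs_D8 (le_refl 2) d8_exp h, ev_gTwo (tD_sq a b), tD_prod hab]
  have := lower_two_aux L h1 h2
  omega

end count

end Pool.Agent.Y42.Pal
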